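import Mathlib

/-!
# Oriented dependent random choice

PROOF of `drc` (all counts natural numbers; `n = card V`, `e` = number of edges). For `T : Fin k → V` let
`N T = {u ∉ P : ∀ i, G.Adj u (T i)}` and let `bad T` be the number of `S ⊆ N T` with `#S = k` and fewer than `m`
common neighbours. (1) `∑ T, #(N T) = ∑ u ∉ P, deg u ^ k` and, by the power mean inequality
(`inner_le_...` / `Finset.pow_sum_div_card_le_sum_pow` / `inv_...`; in ℝ or ℚ), `e ^ k ≤ n ^ (k-1) * ∑ u ∉ P, deg u ^ k`,
because every edge has exactly one end outside `P`. (2) `∑ T, bad T ≤ ∑ over bad k-sets S of (codeg S) ^ k ≤ n ^ k * m ^ k`.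
(3) If `#(N T) < m + bad T` for all `T` then `e ^ k ≤ n ^ (k-1) * (n ^ k * m + n ^ k * m ^ k)`, against the hypothesis.
So `#(N T) ≥ m + bad T` for some `T`; delete one vertex of each bad `S ⊆ N T` from `N T`.
-/

namespace Pool.Agent.Lib.H76GL

open SimpleGraph Finset

/-- Dependent random choice outside `P`. -/
theorem drc {V : Type*} [Fintype V] [DecidableEq V] (G : SimpleGraph V) (P : Set V)
    (hP : ∀ a b, G.Adj a b → (a ∈ P ↔ b ∉ P)) (k m : ℕ) (hk : 1 ≤ k)
    (hm : (m ^ k + m) * Fintype.card V ^ (2 * k - 1) < G.edgeSet.ncard ^ k) :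
    ∃ U : Finset V, (∀ u ∈ U, u ∉ P) ∧ m ≤ #U ∧
      ∀ S ⊆ U, #S = k → m ≤ {x : V | ∀ s ∈ S, G.Adj s x}.ncard := by
  classical
  set n := Fintype.card V with hn
  set A : Finset V := univ.filter (fun u => u ∉ P) with hA
  set B : Finset V := univ.filter (fun u => u ∈ P) with hB
  let N : (Fin k → V) → Finset V := fun T => A.filter (fun u => ∀ i, G.Adj u (T i))
  let cn : Finset V → Finset V := fun S => univ.filter (fun x => ∀ s ∈ S, G.Adj s x)
  have hcn : ∀ S : Finset V, {x : V | ∀ s ∈ S, G.Adj s x}.ncard = #(cn S) := by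
    intro S
    have h : {x : V | ∀ s ∈ S, G.Adj s x} = ↑(cn S) := by
      ext x
      simp [cn]
    rw [h, Set.ncard_coe_finset]
  let bad : (Fin k → V) → Finset (Finset V) := fun T => ((N T).powersetCard k).filter (fun S => #(cn S) < m)
  -- edges
  have he : G.edgeSet.ncard = ∑ u ∈ A, G.degree u := by
    have hbip : G.IsBipartiteWith (A : Set V) (B : Set V) := by
      refine ⟨?_, ?_⟩
      · rw [Finset.disjoint_coe, Finset.disjoint_left]
        intro a ha hb
        exact (mem_filter.1 ha).2 (mem_filter.1 hb).2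
      · intro v w hvw
        have h := hP v w hvw
        by_cases hv : v ∈ P
        · right
          exact ⟨by simp [hB, hv], by simp [hA, h.1 hv]⟩
        · left
          have hw : w ∈ P := by
            by_contra hw
            exact hv (h.2 hw)
          exact ⟨by simp [hA, hv], by simp [hB, hw]⟩
    rw [isBipartiteWith_sum_degrees_eq_card_edges hbip, ← coe_edgeFinset, Set.ncard_coe_finset]
  -- (1)
  have h1 : ∑ T : Fin k → V, #(N T) = ∑ u ∈ A, G.degree u ^ k := by
    simp only [N, card_filter]
    rw [sum_comm]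
    refine sum_congr rfl fun u _ => ?_
    rw [← card_filter]
    have h : (univ.filter fun T : Fin k → V => ∀ i, G.Adj u (T i)) =
        Fintype.piFinset (fun _ : Fin k => G.neighborFinset u) := by
      ext T
      simp
    rw [h, Fintype.card_piFinset]
    simp
  -- (2)
  have h2 : ∑ T : Fin k → V, #(bad T) ≤ n ^ k * m ^ k := by
    have h3 : ∀ T : Fin k → V, #(bad T) ≤
        ∑ S ∈ (univ : Finset V).powersetCard k, if S ⊆ N T ∧ #(cn S) < m then 1 else 0 := by
      intro T
      rw [← card_filter]
      refine card_le_card fun S hS => ?_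
      rw [mem_filter, mem_powersetCard] at hS
      rw [mem_filter, mem_powersetCard]
      exact ⟨⟨subset_univ _, hS.1.2⟩, hS.1.1, hS.2⟩
    calc ∑ T : Fin k → V, #(bad T)
        ≤ ∑ T : Fin k → V, ∑ S ∈ (univ : Finset V).powersetCard k, if S ⊆ N T ∧ #(cn S) < m then 1 else 0 :=
          sum_le_sum fun T _ => h3 T
      _ = ∑ S ∈ (univ : Finset V).powersetCard k, ∑ T : Fin k → V, if S ⊆ N T ∧ #(cn S) < m then 1 else 0 :=
          sum_comm
      _ ≤ ∑ S ∈ (univ : Finset V).powersetCard k, m ^ k := by
          refine sum_le_sum fun S _ => ?_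
          rw [← card_filter]
          by_cases hS : #(cn S) < m
          · have h4 : (univ.filter fun T : Fin k → V => S ⊆ N T ∧ #(cn S) < m) ⊆
                Fintype.piFinset (fun _ : Fin k => cn S) := by
              intro T hT
              rw [mem_filter] at hT
              rw [Fintype.mem_piFinset]
              intro i
              simp only [cn, mem_filter, mem_univ, true_and]
              intro s hs
              exact (mem_filter.1 (hT.2.1 hs)).2 i
            refine (card_le_card h4).trans ?_
            rw [Fintype.card_piFinset, prod_const, card_univ, Fintype.card_fin]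
            exact Nat.pow_le_pow_left hS.le k
          · have h4 : (univ.filter fun T : Fin k → V => S ⊆ N T ∧ #(cn S) < m) = ∅ := by
              refine filter_eq_empty_iff.2 fun T _ h => hS h.2
            rw [h4, card_empty]
            exact Nat.zero_le _
      _ = n.choose k * m ^ k := by
          rw [sum_const, card_powersetCard, card_univ, smul_eq_mul]
      _ ≤ n ^ k * m ^ k := Nat.mul_le_mul_right _ (Nat.choose_le_pow n k)
  -- (3)
  obtain ⟨T, hT⟩ : ∃ T : Fin k → V, m + #(bad T) ≤ #(N T) := by
    by_contra hcon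
    push Not at hcon
    have h5 : ∑ u ∈ A, G.degree u ^ k ≤ n ^ k * m + n ^ k * m ^ k := by
      rw [← h1]
      calc ∑ T : Fin k → V, #(N T) ≤ ∑ T : Fin k → V, (m + #(bad T)) := sum_le_sum fun T _ => (hcon T).le
        _ = n ^ k * m + ∑ T : Fin k → V, #(bad T) := by
            rw [sum_add_distrib, sum_const, card_univ, Fintype.card_fun, Fintype.card_fin, smul_eq_mul]
        _ ≤ _ := Nat.add_le_add_left h2 _
    obtain ⟨j, rfl⟩ : ∃ j, k = j + 1 := ⟨k - 1, by omega⟩
    have h6 : (∑ u ∈ A, G.degree u) ^ (j + 1) ≤ #A ^ j * ∑ u ∈ A, G.degree u ^ (j + 1) := by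
      have := pow_sum_le_card_mul_sum_pow (s := A) (f := fun u => G.degree u) (fun _ _ => Nat.zero_le _) j
      simpa using this
    have h7 : #A ^ j ≤ n ^ j := Nat.pow_le_pow_left (card_le_univ A) j
    have h8 : G.edgeSet.ncard ^ (j + 1) ≤ n ^ j * (n ^ (j + 1) * m + n ^ (j + 1) * m ^ (j + 1)) := by
      rw [he]
      exact h6.trans (Nat.mul_le_mul h7 h5)
    have h9 : n ^ j * (n ^ (j + 1) * m + n ^ (j + 1) * m ^ (j + 1)) =
        (m ^ (j + 1) + m) * n ^ (2 * (j + 1) - 1) := by
      have : 2 * (j + 1) - 1 = j + (j + 1) := by omega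
      rw [this, pow_add]
      ring
    omega
  -- deletion
  have hf : ∀ S : Finset V, ∃ v : V, S.Nonempty → v ∈ S := by
    intro S
    by_cases hS : S.Nonempty
    · obtain ⟨v, hv⟩ := hS
      exact ⟨v, fun _ => hv⟩
    · have hV : Nonempty V := by
        by_contra hV
        rw [not_nonempty_iff] at hV
        have h0 : n = 0 := by
          rw [hn]
          exact Fintype.card_eq_zero
        have h1 : G.edgeSet.ncard = 0 := by
          rw [he]
          refine sum_eq_zero fun u _ => (hV.false u).elim
        rw [h1, zero_pow (by omega)] at hm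
        omega
      exact ⟨hV.some, fun h => absurd h hS⟩
  choose f hf using hf
  refine ⟨N T \ (bad T).image f, ?_, ?_, ?_⟩
  · intro u hu
    have := (mem_filter.1 (mem_sdiff.1 hu).1).1
    exact (mem_filter.1 this).2
  · have h1 : #(N T) - #((bad T).image f) ≤ #(N T \ (bad T).image f) := le_card_sdiff _ _
    have h2 : #((bad T).image f) ≤ #(bad T) := card_image_le
    omega
  · intro S hS hSk
    rw [hcn]
    by_contra hlt
    push Not at hlt
    have hbad : S ∈ bad T := by
      rw [mem_filter, mem_powersetCard]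
      exact ⟨⟨hS.trans sdiff_subset, hSk⟩, hlt⟩
    have hne : S.Nonempty := by
      rw [← card_pos]
      omega
    have h1 := hS (hf S hne)
    exact (mem_sdiff.1 h1).2 (mem_image_of_mem f hbad)

end Pool.Agent.Lib.H76GL
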