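import Mathlib

/-!
# Embedding a graph with a colour class of small degrees

PROOF of `embed`. Choose an injection `ι` of `{a // a ∉ L}` into `U` (`card W ≤ m ≤ #U`). For `a ∈ L` the set
`ι '' (neighbours of a)` has at most `k` elements (the neighbours are not in `L` by `hL`); extend it to a set `S a ⊆ U` with
exactly `k` elements (`Finset.exists_subsuperset_card_eq`, `k ≤ m ≤ #U`). The set of the common neighbours of `S a` has at least `m ≥ card W`
elements, all in `P` (by `hP`, since `k ≥ 1` gives an element of `S a`, which is outside `P`). By Hall's theorem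
(`Finset.all_card_le_biUnion_card_iff_exists_injective`, trivial since each set has at least `card W` elements) there is an injective choice
`f a` of common neighbours for `a ∈ L`. The copy is `ι` outside `L` and `f` on `L`; it is injective since the images lie
outside `P`, in `P`.
-/

namespace Pool.Agent.Lib.H76GL

open SimpleGraph Finset

/-- The embedding: the class `L` goes into `P`, its complement outside `P`. -/
theorem embed {W V : Type*} [Fintype W] [Fintype V] (H : SimpleGraph W) (L : Set W)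
    (hL : ∀ a b, H.Adj a b → (a ∈ L ↔ b ∉ L)) (k m : ℕ) (hk : 1 ≤ k)
    (hdeg : ∀ a ∈ L, (H.neighborSet a).ncard ≤ k) (hm : Fintype.card W + k ≤ m)
    (G : SimpleGraph V) (P : Set V) (hP : ∀ a b, G.Adj a b → (a ∈ P ↔ b ∉ P))
    (U : Finset V) (hU : ∀ u ∈ U, u ∉ P) (hUm : m ≤ #U)
    (hS : ∀ S ⊆ U, #S = k → m ≤ {x : V | ∀ s ∈ S, G.Adj s x}.ncard) :
    ∃ c : Copy H G, ∀ a, c a ∈ P ↔ a ∈ L := by
  classical
  obtain ⟨e⟩ : Nonempty ({a : W // a ∉ L} ↪ U) := by
    apply Function.Embedding.nonempty_of_card_le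
    have h1 : Fintype.card {a : W // a ∉ L} ≤ Fintype.card W := Fintype.card_subtype_le _
    rw [Fintype.card_coe]
    omega
  have hT : ∀ a : {a : W // a ∈ L}, ∃ S : Finset V, S ⊆ U ∧ #S = k ∧
      ∀ b : {a : W // a ∉ L}, H.Adj a.1 b.1 → (e b : V) ∈ S := by
    intro a
    have h1 : #((Finset.univ.filter fun b : {a : W // a ∉ L} => H.Adj a.1 b.1).image fun b => (e b : V)) ≤ k := by
      refine Finset.card_image_le.trans ((?_ : _ ≤ (H.neighborSet a.1).ncard).trans (hdeg a.1 a.2))
      rw [← Set.ncard_coe_finset]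
      refine Set.ncard_le_ncard_of_injOn (fun b : {a : W // a ∉ L} => b.1) (fun b hb => ?_)
        (fun x _ y _ h => Subtype.ext h) (Set.toFinite _)
      have h2 := (Finset.mem_filter.1 (Finset.mem_coe.1 hb)).2
      exact h2
    have h2 : ((Finset.univ.filter fun b : {a : W // a ∉ L} => H.Adj a.1 b.1).image fun b => (e b : V)) ⊆ U := by
      intro x hx
      obtain ⟨b, _, rfl⟩ := Finset.mem_image.1 hx
      exact (e b).2
    obtain ⟨S, hS1, hS2, hS3⟩ := Finset.exists_subsuperset_card_eq h2 h1 (by omega : k ≤ #U)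
    exact ⟨S, hS2, hS3, fun b hb => hS1 (Finset.mem_image.2 ⟨b, Finset.mem_filter.2 ⟨Finset.mem_univ _, hb⟩, rfl⟩)⟩
  choose S hSU hSk hSe using hT
  obtain ⟨f, hf, hfX⟩ := (Finset.all_card_le_biUnion_card_iff_exists_injective
    (fun a : {a : W // a ∈ L} => Finset.univ.filter fun x : V => ∀ s ∈ S a, G.Adj s x)).1 (by
      intro s
      rcases s.eq_empty_or_nonempty with rfl | ⟨a, ha⟩
      · simp
      · have h1 : #(Finset.univ.filter fun x : V => ∀ s ∈ S a, G.Adj s x) ≤
            #(s.biUnion fun a : {a : W // a ∈ L} => Finset.univ.filter fun x : V => ∀ s ∈ S a, G.Adj s x) :=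
          Finset.card_le_card (Finset.subset_biUnion_of_mem
            (fun a : {a : W // a ∈ L} => Finset.univ.filter fun x : V => ∀ s ∈ S a, G.Adj s x) ha)
        have h2 : m ≤ #(Finset.univ.filter fun x : V => ∀ s ∈ S a, G.Adj s x) := by
          have h3 := hS (S a) (hSU a) (hSk a)
          rw [← Set.ncard_coe_finset]
          simpa using h3
        have h4 : #s ≤ Fintype.card W :=
          (Finset.card_le_univ s).trans (Fintype.card_subtype_le _)
        omega)
  have hfP : ∀ a, f a ∈ P := by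
    intro a
    obtain ⟨s, hs⟩ : (S a).Nonempty := by
      rw [← Finset.card_pos, hSk]
      omega
    have h1 := (Finset.mem_filter.1 (hfX a)).2 s hs
    by_contra hcon
    exact hU s (hSU a hs) ((hP s (f a) h1).2 hcon)
  have heP : ∀ b, (e b : V) ∉ P := fun b => hU _ (e b).2
  obtain ⟨c, hc1, hc2⟩ : ∃ c : W → V, (∀ (a : W) (h : a ∈ L), c a = f ⟨a, h⟩) ∧
      ∀ (a : W) (h : a ∉ L), c a = e ⟨a, h⟩ :=
    ⟨fun a => if h : a ∈ L then f ⟨a, h⟩ else e ⟨a, h⟩, fun a h => dif_pos h, fun a h => dif_neg h⟩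
  have hmem : ∀ a, c a ∈ P ↔ a ∈ L := by
    intro a
    by_cases h : a ∈ L
    · rw [hc1 a h]
      exact ⟨fun _ => h, fun _ => hfP _⟩
    · rw [hc2 a h]
      exact ⟨fun h' => absurd h' (heP _), fun h' => absurd h' h⟩
  have hkey : ∀ a b, a ∈ L → b ∉ L → H.Adj a b → G.Adj (c a) (c b) := by
    intro a b ha hb hab
    rw [hc1 a ha, hc2 b hb]
    exact ((Finset.mem_filter.1 (hfX ⟨a, ha⟩)).2 _ (hSe ⟨a, ha⟩ ⟨b, hb⟩ hab)).symm
  have hadj : ∀ a b, H.Adj a b → G.Adj (c a) (c b) := by
    intro a b hab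
    by_cases ha : a ∈ L
    · exact hkey a b ha ((hL a b hab).1 ha) hab
    · have hb : b ∈ L := by
        by_contra hb
        exact ha ((hL a b hab).2 hb)
      exact (hkey b a hb ha hab.symm).symm
  have hinj : Function.Injective c := by
    intro a b hab
    by_cases ha : a ∈ L
    · have hb : b ∈ L := (hmem b).1 (hab ▸ (hmem a).2 ha)
      rw [hc1 a ha, hc1 b hb] at hab
      exact congrArg Subtype.val (hf hab)
    · have hb : b ∉ L := fun hb => ha ((hmem a).1 (hab.symm ▸ (hmem b).2 hb))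
      rw [hc2 a ha, hc2 b hb] at hab
      exact congrArg Subtype.val (e.injective (Subtype.ext hab))
  exact ⟨⟨⟨c, fun {a b} h => hadj a b h⟩, hinj⟩, hmem⟩

end Pool.Agent.Lib.H76GL
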