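import Mathlib

/-!
# The affine plane graph has no 4-cycle

PROOF of `plane_lower`. `G` is the graph on `(ZMod p × ZMod p) ⊕ (ZMod p × ZMod p)` with `inl (x, y)` adjacent to
`inr (s, t)` iff `y = s * x + t`. It has `2 p²` vertices and `p³` edges (injection `(x, s, t) ↦ {inl (x, s x + t), inr (s, t)}`) and
no copy of `cycleGraph 4` (two points with different `x` lie on at most one line, with the same `x` on none). Then
`SimpleGraph.card_edgeFinset_le_extremalNumber` with `Fintype.card V = 2 * p ^ 2`.
-/

namespace Pool.Agent.Lib.H76GL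

open SimpleGraph Finset

/-- the point `P` lies on the line `L` -/
private def On {R : Type} [CommRing R] (P L : R × R) : Prop := P.2 = L.1 * P.1 + L.2

/-- the incidence relation of the affine plane -/
private def planeAdj {R : Type} [CommRing R] : (R × R) ⊕ (R × R) → (R × R) ⊕ (R × R) → Prop
  | Sum.inl P, Sum.inr L => On P L
  | Sum.inr L, Sum.inl P => On P L
  | _, _ => False

/-- the incidence graph of the affine plane -/
private def plane (R : Type) [CommRing R] : SimpleGraph ((R × R) ⊕ (R × R)) where
  Adj := planeAdj
  symm := ⟨fun u v h => by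
    rcases u with P | L <;> rcases v with Q | M
    · exact h
    · exact h
    · exact h
    · exact h⟩
  loopless := ⟨fun u h => by
    rcases u with P | L
    · exact h
    · exact h⟩

private lemma two_points {R : Type} [CommRing R] [IsDomain R] {P Q L M : R × R} (h1 : On P L) (h2 : On Q L)
    (h3 : On Q M) (h4 : On P M) : P = Q ∨ L = M := by
  unfold On at h1 h2 h3 h4
  have h5 : (L.1 - M.1) * (P.1 - Q.1) = 0 := by linear_combination -h1 + h4 + h2 - h3
  rcases mul_eq_zero.1 h5 with h | h
  · right
    have h6 : L.1 = M.1 := sub_eq_zero.1 h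
    refine Prod.ext h6 ?_
    rw [h6] at h1
    linear_combination h4 - h1
  · left
    have h6 : P.1 = Q.1 := sub_eq_zero.1 h
    refine Prod.ext h6 ?_
    rw [h6] at h1
    rw [h1, h2]

private lemma free {R : Type} [CommRing R] [IsDomain R] : (cycleGraph 4).Free (plane R) := by
  rintro ⟨f⟩
  have hinj := f.injective
  have h01 : (plane R).Adj (f 0) (f 1) := f.toHom.map_adj (by decide)
  have h12 : (plane R).Adj (f 1) (f 2) := f.toHom.map_adj (by decide)
  have h23 : (plane R).Adj (f 2) (f 3) := f.toHom.map_adj (by decide)
  have h30 : (plane R).Adj (f 3) (f 0) := f.toHom.map_adj (by decide)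
  have n02 : f 0 ≠ f 2 := fun h => absurd (hinj h) (by decide)
  have n13 : f 1 ≠ f 3 := fun h => absurd (hinj h) (by decide)
  generalize f 0 = a at *
  generalize f 1 = b at *
  generalize f 2 = c at *
  generalize f 3 = d at *
  rcases a with P | L <;> rcases b with P' | L'
  · exact h01
  · rcases c with Q | M
    · rcases d with Q' | M'
      · exact h23
      · rcases two_points (show On P L' from h01) (show On Q L' from h12) (show On Q M' from h23)
          (show On P M' from h30) with h | h
        · exact n02 (by rw [h])
        · exact n13 (by rw [h])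
    · exact h12
  · rcases c with Q | M
    · exact h12
    · rcases d with Q' | M'
      · rcases two_points (show On P' L from h01) (show On Q' L from h30) (show On Q' M from h23)
          (show On P' M from h12) with h | h
        · exact n13 (by rw [h])
        · exact n02 (by rw [h])
      · exact h23
  · exact h01

theorem plane_lower (p : ℕ) (hp : p.Prime) : p ^ 3 ≤ extremalNumber (2 * p ^ 2) (cycleGraph 4) := by
  classical
  have : Fact p.Prime := ⟨hp⟩
  have hV : Fintype.card ((ZMod p × ZMod p) ⊕ (ZMod p × ZMod p)) = 2 * p ^ 2 := by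
    rw [Fintype.card_sum, Fintype.card_prod, ZMod.card]
    ring
  have h1 := card_edgeFinset_le_extremalNumber (free (R := ZMod p))
  rw [hV] at h1
  refine le_trans ?_ h1
  have h2 : Fintype.card (ZMod p × ZMod p × ZMod p) ≤ Fintype.card (plane (ZMod p)).edgeSet := by
    refine Fintype.card_le_of_injective (fun q => ⟨s(Sum.inl (q.1, q.2.1 * q.1 + q.2.2), Sum.inr (q.2.1, q.2.2)), ?_⟩) ?_
    · rw [mem_edgeSet]
      exact rfl
    · rintro ⟨x, s, t⟩ ⟨x', s', t'⟩ h
      have h3 := congrArg Subtype.val h
      simp only [Sym2.eq_iff, Sum.inl.injEq, Sum.inr.injEq, Prod.mk.injEq, reduceCtorEq, false_and, or_false] at h3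
      obtain ⟨⟨h4, -⟩, h5, h6⟩ := h3
      rw [h4, h5, h6]
  rw [Fintype.card_prod, Fintype.card_prod, ZMod.card] at h2
  rw [edgeFinset_card]
  calc p ^ 3 = p * (p * p) := by ring
    _ ≤ _ := h2

end Pool.Agent.Lib.H76GL
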