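import Pool.Agent.Lib.H76GL.A3
import Pool.Agent.Lib.Helper15.Glue.Ex

/-!
# The order `n ^ (3/2)` for the 4-cycle, lower bound

PROOF of `c4_lower`. For `n ≥ 8` let `q = Nat.sqrt (n / 8)` (`q ≥ 1`) and take a prime `q < p ≤ 2 q`
(`Nat.exists_prime_lt_and_le_two_mul`): `2 p² ≤ 8 q² ≤ n` and `n < 8 (q+1)² + 8 ≤ 16 p²`, say. By
`Helper15.Glue.extremalNumber_le_add` (`k ≤ n → ex(k, H) ≤ ex(n, H) + card W ^ 2`, here `card W = 4`) and `plane_lower`,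
`p³ ≤ ex(n, C₄) + 16`; for `p ≥ 3` this gives `p³ ≤ 4 ex(n, C₄)`, so `n ^ 3 ≤ 16 ^ 3 * p ^ 6 ≤ c * ex(n, C₄) ^ 2`.
-/

namespace Pool.Agent.Lib.H76GL

open SimpleGraph Finset

/-- `ex(n, C₄)² ≥ n³ / c`. -/
theorem c4_lower : ∃ c N : ℕ, ∀ n, N ≤ n → n ^ 3 ≤ c * extremalNumber n (cycleGraph 4) ^ 2 := by
  refine ⟨8192, 32, fun n hn => ?_⟩
  obtain ⟨q, hq⟩ : ∃ q, q = Nat.sqrt (n / 8) := ⟨_, rfl⟩
  have h1 : q * q ≤ n / 8 := hq ▸ Nat.sqrt_le (n / 8)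
  have h2 : n / 8 < (q + 1) * (q + 1) := hq ▸ Nat.lt_succ_sqrt (n / 8)
  have hq2 : 2 ≤ q := by
    rw [hq]
    exact Nat.le_sqrt.2 (by omega)
  obtain ⟨p, hp, hqp, hp2⟩ := Nat.exists_prime_lt_and_le_two_mul q (by omega)
  have h3 : 2 * p ^ 2 ≤ n := by
    have h4 : p * p ≤ 2 * q * (2 * q) := Nat.mul_le_mul hp2 hp2
    have h5 : 2 * q * (2 * q) = 4 * (q * q) := by ring
    have h6 : p ^ 2 = p * p := sq p
    omega
  have h7 : n < 8 * p ^ 2 := by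
    have h4 : (q + 1) * (q + 1) ≤ p * p := Nat.mul_le_mul hqp hqp
    have h6 : p ^ 2 = p * p := sq p
    omega
  have h8 : p ^ 3 ≤ extremalNumber n (cycleGraph 4) + 16 := by
    have h9 := (plane_lower p hp).trans (Helper15.Glue.extremalNumber_le_add (cycleGraph 4) h3)
    rw [Fintype.card_fin] at h9
    exact h9
  have h10 : 27 ≤ p ^ 3 := by
    have : 3 ≤ p := by omega
    calc 27 = 3 ^ 3 := by norm_num
      _ ≤ p ^ 3 := Nat.pow_le_pow_left this 3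
  have h11 : p ^ 3 ≤ 4 * extremalNumber n (cycleGraph 4) := by omega
  calc n ^ 3 ≤ (8 * p ^ 2) ^ 3 := Nat.pow_le_pow_left h7.le 3
    _ = 512 * (p ^ 3) ^ 2 := by ring
    _ ≤ 512 * (4 * extremalNumber n (cycleGraph 4)) ^ 2 :=
        Nat.mul_le_mul_left _ (Nat.pow_le_pow_left h11 2)
    _ = 8192 * extremalNumber n (cycleGraph 4) ^ 2 := by ring

end Pool.Agent.Lib.H76GL
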