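import Pool.Agent.Lib.Helper15.Glue.Theta

/-!
# The asymmetric extremal problem relative to a function `g`
-/

namespace Pool.Agent.Lib.H76GL

open SimpleGraph Finset Pool.Agent.Lib.Helper15.Glue

/-- `ESAt` with a function `g` in place of the extremal number. -/
def ESG {W : Type*} (g : ℕ → ℕ) (H : SimpleGraph W) (r : W) : Prop :=
  ∃ C : ℕ, ∀ (n : ℕ) (G : SimpleGraph (Fin n)) (P : Set (Fin n)),
    (∀ a b, G.Adj a b → (a ∈ P ↔ b ∉ P)) → (∀ c : Copy H G, c r ∈ P) →
      G.edgeSet.ncard ≤ C * (g n + n)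

end Pool.Agent.Lib.H76GL
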