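import Pool.Agent.Lib.H76GL.B0

/-!
# The basic inequality relative to a function `g`

Copy of `ESAt.bound`, `ESAt.main`, `ESAt.extremalNumber_glue_le` in `Pool/Agent/Lib/Helper15/Glue/ES.lean`, with `g n` in place of
`extremalNumber n H` (`g` monotone, `extremalNumber n H ≤ g n`; use `hex` where `extremalNumber n H` comes from `pairs_le`,
monotonicity of `g` instead of `extremalNumber_le_add` in `h3`).
-/

namespace Pool.Agent.Lib.H76GL

open SimpleGraph Finset Pool.Agent.Lib.Helper15.Glue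

lemma ESG.bound {W : Type*} {g : ℕ → ℕ} {H : SimpleGraph W} {r : W} (h : ESG g H r) :
    ∃ C : ℕ, ∀ {V : Type} [Fintype V] (G : SimpleGraph V) (P : Set V),
      (∀ a b, G.Adj a b → (a ∈ P ↔ b ∉ P)) → (∀ c : Copy H G, c r ∈ P) →
        G.edgeSet.ncard ≤ C * (g (Fintype.card V) + Fintype.card V) := by
  classical
  obtain ⟨C, hC⟩ := h
  refine ⟨C, fun {V} _ G P hP hc => ?_⟩
  set i : G ≃g G.map (Fintype.equivFin V) := SimpleGraph.Iso.map (Fintype.equivFin V) G with hi
  have h1 := hC (Fintype.card V) (G.map (Fintype.equivFin V)) (i.symm ⁻¹' P)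
    (fun a b hab => hP _ _ (i.symm.map_adj_iff.2 hab)) (fun c => hc (i.symm.toCopy.comp c))
  rw [ncard_edgeSet] at h1 ⊢
  have h2 : #G.edgeFinset = #(G.map (Fintype.equivFin V)).edgeFinset := i.card_edgeFinset_eq
  rwa [h2]

theorem ESG.main {W : Type*} [Fintype W] {g : ℕ → ℕ} (hg : Monotone g) {H : SimpleGraph W} {r : W}
    (hex : ∀ n, extremalNumber n H ≤ g n) (h : ESG g H r) :
    ∃ C : ℕ, ∀ {V : Type} [Fintype V] (G : SimpleGraph V) (E : ℕ),
      (∀ Z : Set V, (∀ w ∈ Z, ∃ c : Copy H G, c r = w ∧ ∀ x, x ≠ r → c x ∉ Z) →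
        (G.induce Z).edgeSet.ncard ≤ E) →
      G.edgeSet.ncard ≤ C * (E + g (Fintype.card V) + Fintype.card V) := by
  classical
  obtain ⟨C₀, hC₀⟩ := h.bound
  refine ⟨4 ^ Fintype.card W * (1 + (Fintype.card W ^ 2 + 1) + C₀ * (Fintype.card W ^ 2 + 1)) +
    Fintype.card W, fun {V} _ G E hE => ?_⟩
  obtain ⟨S, hSw, hSt, hS⟩ := exists_sets H r G
  have hpos : 0 < Fintype.card W := Fintype.card_pos_iff.2 ⟨r⟩
  set n := Fintype.card V with hn
  rcases Nat.eq_zero_or_pos n with hn0 | hn0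
  · have : IsEmpty V := Fintype.card_eq_zero_iff.1 (hn.symm.trans hn0)
    have h0 : G.edgeSet = ∅ := by
      ext e
      induction e with | _ a b
      exact this.elim a
    rw [h0, Set.ncard_empty]
    exact Nat.zero_le _
  have hB : ∀ X : Finset V,
      #{p : V × V | p.1 ∈ goodIn S X ∧ p.2 ∈ goodIn S X ∧ G.Adj p.1 p.2} ≤
        2 * E + 2 * (g n + Fintype.card W ^ 2) +
          2 * (C₀ * (g n + Fintype.card W ^ 2 + n)) := by
    intro X
    have hgood : ∀ w ∈ goodIn S X, (∃ d : Copy H G, d r = w) →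
        ∃ c : Copy H G, c r = w ∧ ∀ x, x ≠ r → c x ∉ goodIn S X := by
      intro w hw hd
      obtain ⟨c, hc, hcS⟩ := hS w hd
      refine ⟨c, hc, fun x hx hxG => ?_⟩
      exact disjoint_left.1 (mem_goodIn.1 hw).2 (hcS x hx) (mem_goodIn.1 hxG).1
    generalize goodIn S X = Y at hgood ⊢
    have h1 : #{p : V × V | p.1 ∈ Y.filter (fun w => ∃ d : Copy H G, d r = w) ∧
        p.2 ∈ Y.filter (fun w => ∃ d : Copy H G, d r = w) ∧ G.Adj p.1 p.2} ≤ 2 * E := by
      refine (pairs_le_induce G _).trans (Nat.mul_le_mul_left _ ?_)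
      rw [← ncard_edgeSet]
      refine hE _ fun w hw => ?_
      obtain ⟨hw1, hw2⟩ := mem_filter.1 (mem_coe.1 hw)
      obtain ⟨c, hc1, hc2⟩ := hgood w hw1 hw2
      exact ⟨c, hc1, fun x hx hxm => hc2 x hx (mem_filter.1 (mem_coe.1 hxm)).1⟩
    have h2 : #{p : V × V | p.1 ∈ Y.filter (fun w => ¬ ∃ d : Copy H G, d r = w) ∧
        p.2 ∈ Y.filter (fun w => ¬ ∃ d : Copy H G, d r = w) ∧ G.Adj p.1 p.2} ≤
        2 * (g n + Fintype.card W ^ 2) := by
      refine (pairs_le H G _ fun c hc => ?_).trans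
        (Nat.mul_le_mul_left _ (Nat.add_le_add_right (hex n) _))
      exact (mem_filter.1 (hc r)).2 ⟨c, rfl⟩
    have h3 : #{p : V × V | p.1 ∈ Y ∧ p.2 ∈ Y ∧
        (crossG G (fun w => ∃ d : Copy H G, d r = w)).Adj p.1 p.2} ≤
        2 * (C₀ * (g n + Fintype.card W ^ 2 + n)) := by
      refine (pairs_le_induce _ Y).trans (Nat.mul_le_mul_left _ ?_)
      rw [← ncard_edgeSet]
      refine (hC₀ _ {w : (Y : Set V) | ∃ d : Copy H G, d r = w.1} ?_ ?_).trans ?_
      · rintro a b hab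
        have h4 : (crossG G (fun w => ∃ d : Copy H G, d r = w)).Adj a.1 b.1 := hab
        have h5 := h4.2
        simp only [Set.mem_ofPred_eq]
        tauto
      · intro c
        obtain ⟨d, hd⟩ := exists_copy_of_crossG c
        exact ⟨d, hd r⟩
      · refine Nat.mul_le_mul_left _ ?_
        have h6 : Fintype.card (Y : Set V) ≤ n := by simpa using card_le_univ Y
        exact Nat.add_le_add ((hg h6).trans (Nat.le_add_right _ _)) h6
    refine le_trans (card_le_card (t := _ ∪ _ ∪ _) ?_) ((card_union_le _ _).trans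
      (Nat.add_le_add ((card_union_le _ _).trans (Nat.add_le_add h1 h2)) h3))
    rintro ⟨a, b⟩ hab
    simp only [mem_filter, mem_univ, true_and] at hab
    obtain ⟨hab1, hab2, hab3⟩ := hab
    simp only [mem_union, mem_filter, mem_univ, true_and, crossG]
    by_cases ha : ∃ d : Copy H G, d r = a <;> by_cases hb : ∃ d : Copy H G, d r = b <;>
      simp only [ha, hb, hab1, hab2, hab3, not_true_eq_false, not_false_eq_true, and_true,
        and_false, or_true, or_false, iff_true, iff_false, iff_self]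
  have hDc : #(univ.filter (fun p : V × V => G.Adj p.1 p.2)) = 2 * G.edgeSet.ncard := by
    rw [ncard_edgeSet, two_mul_card_edgeFinset]
  have hmain := averaging (univ.filter (fun p : V × V => G.Adj p.1 p.2)) S
    (Fintype.card W - 1) _ hSt hSw (fun X => by
      refine le_trans (card_le_card ?_) (hB X)
      intro p hp
      simp only [mem_filter, mem_univ, true_and] at hp ⊢
      exact ⟨hp.2.1, hp.2.2, hp.1⟩)
  rw [hDc, Nat.sub_add_cancel hpos] at hmain
  have h5 : (Fintype.card W - 1) * n ≤ Fintype.card W * n :=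
    Nat.mul_le_mul_right _ (Nat.sub_le _ _)
  generalize g n = x at *
  generalize Fintype.card W = w at *
  generalize G.edgeSet.ncard = e at *
  have h6 : e ≤ 4 ^ w * (E + (x + w ^ 2) + C₀ * (x + w ^ 2 + n)) + w * n := by
    have h7 : 4 ^ w * (2 * E + 2 * (x + w ^ 2) + 2 * (C₀ * (x + w ^ 2 + n))) =
      2 * (4 ^ w * (E + (x + w ^ 2) + C₀ * (x + w ^ 2 + n))) := by ring
    have h8 : 2 * (w - 1) * n = 2 * ((w - 1) * n) := by ring
    rw [h7, h8] at hmain
    omega
  refine h6.trans ?_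
  have h9 : w ^ 2 ≤ w ^ 2 * n := Nat.le_mul_of_pos_right _ hn0
  have h10 : E + (x + w ^ 2) + C₀ * (x + w ^ 2 + n) ≤
      (1 + (w ^ 2 + 1) + C₀ * (w ^ 2 + 1)) * (E + x + n) := by
    have h11 : x + w ^ 2 ≤ (w ^ 2 + 1) * (E + x + n) := by nlinarith
    have h12 : x + w ^ 2 + n ≤ (w ^ 2 + 1) * (E + x + n) := by nlinarith
    have h13 : C₀ * (x + w ^ 2 + n) ≤ C₀ * ((w ^ 2 + 1) * (E + x + n)) :=
      Nat.mul_le_mul_left _ h12
    nlinarith
  calc 4 ^ w * (E + (x + w ^ 2) + C₀ * (x + w ^ 2 + n)) + w * n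
      ≤ 4 ^ w * ((1 + (w ^ 2 + 1) + C₀ * (w ^ 2 + 1)) * (E + x + n)) + w * (E + x + n) := by
        refine Nat.add_le_add (Nat.mul_le_mul_left _ h10) (Nat.mul_le_mul_left _ ?_)
        omega
    _ = _ := by ring

theorem ESG.glue_le {V₁ V₂ : Type*} [Fintype V₁] [Fintype V₂] {g : ℕ → ℕ} (hg : Monotone g)
    {H₁ : SimpleGraph V₁} {u : V₁} {H₂ : SimpleGraph V₂} {v : V₂}
    (hex : ∀ n, extremalNumber n H₂ ≤ g n) (h : ESG g H₂ v) :
    ∃ C : ℕ, ∀ n : ℕ, extremalNumber n (glue H₁ u H₂ v) ≤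
      C * (extremalNumber n H₁ + g n + n) := by
  classical
  obtain ⟨C, hC⟩ := h.main hg hex
  refine ⟨C * (Fintype.card V₁ ^ 2 + 1), fun n => ?_⟩
  have key := (extremalNumber_le_iff (V := Fin n) (glue H₁ u H₂ v)
    (C * (Fintype.card V₁ ^ 2 + 1) * (extremalNumber n H₁ + g n + n))).2 (by
    intro G _ hG
    rw [← ncard_edgeSet]
    rcases Nat.eq_zero_or_pos n with hn0 | hn0
    · subst hn0
      have h0 : G.edgeSet = ∅ := by
        ext e
        induction e with | _ a b
        exact a.elim0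
      rw [h0, Set.ncard_empty]
      exact Nat.zero_le _
    refine (hC G (extremalNumber n H₁ + Fintype.card V₁ ^ 2) ?_).trans ?_
    · intro Z hZ
      have hfree : H₁.Free (G.induce Z) := by
        rintro ⟨c⟩
        obtain ⟨d, hd, hdZ⟩ := hZ (c u) (c u).2
        refine hG (glue_isContained ((Copy.induce G Z).comp c) d ?_ ?_)
        · rw [hd]; rfl
        · intro x hx y hy hxy
          apply hdZ y hy
          rw [← hxy]
          exact (c x).2
      rw [ncard_edgeSet]
      refine (card_edgeFinset_le_extremalNumber hfree).trans (extremalNumber_le_add H₁ ?_)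
      simpa using set_fintype_card_le_univ Z
    · rw [Fintype.card_fin, mul_assoc]
      refine Nat.mul_le_mul_left _ ?_
      have : Fintype.card V₁ ^ 2 ≤ Fintype.card V₁ ^ 2 * n := Nat.le_mul_of_pos_right _ hn0
      nlinarith)
  rwa [Fintype.card_fin] at key

end Pool.Agent.Lib.H76GL
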