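import Pool.Agent.Lib.H76GL.B1

/-!
# Closure relative to a function `g`
-/

namespace Pool.Agent.Lib.H76GL

open SimpleGraph Finset Pool.Agent.Lib.Helper15.Glue

/-- Closure of `ESG` under amalgamation at a cut vertex. -/
theorem esg_cut {W : Type*} [Finite W] {g : ℕ → ℕ} (hg : Monotone g) {H : SimpleGraph W}
    {S₁ S₂ S : Set W} (hex : ∀ n, extremalNumber n (H.induce S) ≤ g n)
    (hS : S₁ ∪ S₂ = S) (hcross : ∀ a ∈ S₁, ∀ b ∈ S₂, H.Adj a b → a ∈ S₂ ∨ b ∈ S₁)
    {x v : W} (hx1 : x ∈ S₁) (hx2 : x ∈ S₂) (hx : ∀ a, a ∈ S₁ → a ∈ S₂ → a = x)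
    (hv1 : v ∈ S₁) (hv : v ∈ S) (h₁ : ESG g (H.induce S₁) ⟨v, hv1⟩)
    (h₂ : ESG g (H.induce S₂) ⟨x, hx2⟩) : ESG g (H.induce S) ⟨v, hv⟩ := by
  classical
  have : Fintype W := Fintype.ofFinite W
  obtain ⟨C₁, hC₁⟩ := h₁.bound
  
  have hS₁ : S₁ ⊆ S := hS ▸ Set.subset_union_left
  have hS₂ : S₂ ⊆ S := hS ▸ Set.subset_union_right
  obtain ⟨C₂, hC₂⟩ := ESG.main hg (fun n => (extremalNumber_induce_mono H hS₂ n).trans (hex n)) h₂
  refine ⟨C₂ * (C₁ + 1), fun n G P hP hc => ?_⟩
  rcases Nat.eq_zero_or_pos n with hn0 | hn0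
  · subst hn0
    have h0 : G.edgeSet = ∅ := by
      ext e
      induction e with | _ a b
      exact a.elim0
    rw [h0, Set.ncard_empty]
    exact Nat.zero_le _
  have h3 := hC₂ G (C₁ * (g n + n)) (by
    intro Z hZ
    have hproper : ∀ a b, (G.induce Z).Adj a b →
        (a ∈ {w : Z | w.1 ∈ P} ↔ b ∉ {w : Z | w.1 ∈ P}) := by
      intro a b hab
      exact hP a.1 b.1 hab
    have hcopies : ∀ c : Copy (H.induce S₁) (G.induce Z),
        c ⟨v, hv1⟩ ∈ {w : Z | w.1 ∈ P} := by
      intro c
      obtain ⟨d, hd, hdZ⟩ := hZ (c ⟨x, hx1⟩) (c ⟨x, hx1⟩).2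
      obtain ⟨e, he⟩ := exists_combine hS hcross ((Copy.induce G Z).comp c) d (by
        intro a b
        have ha : ((Copy.induce G Z).comp c) a = (c a).1 := rfl
        rw [ha]
        constructor
        · intro hab
          have hb : b = ⟨x, hx2⟩ := by
            by_contra hb
            exact hdZ b hb (hab ▸ (c a).2)
          rw [hb, hd] at hab
          have := c.injective (Subtype.ext hab)
          rw [hb, this]
        · intro hab
          have hax : a.1 = x := hx a.1 a.2 (hab ▸ b.2)
          have ha' : a = ⟨x, hx1⟩ := Subtype.ext hax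
          have hb' : b = ⟨x, hx2⟩ := Subtype.ext (hab ▸ hax)
          rw [ha', hb', hd])
      have h5 := hc e
      rw [he v hv1 hv] at h5
      exact h5
    refine (hC₁ (G.induce Z) _ hproper hcopies).trans (Nat.mul_le_mul_left _ ?_)
    have h6 : Fintype.card Z ≤ n := by simpa using set_fintype_card_le_univ Z
    exact Nat.add_le_add (hg h6) h6)
  refine h3.trans ?_
  rw [Fintype.card_fin, mul_assoc]
  refine Nat.mul_le_mul_left _ ?_
  generalize g n = y at *
  nlinarith

/-- Closure of `ESG` under adding disjoint parts. -/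
theorem esg_disjoint {W : Type*} [Finite W] {g : ℕ → ℕ} (hg : Monotone g) {H : SimpleGraph W}
    {S₁ S₂ S : Set W} (hex : ∀ n, extremalNumber n (H.induce S) ≤ g n)
    (hS : S₁ ∪ S₂ = S) (hcross : ∀ a ∈ S₁, ∀ b ∈ S₂, ¬ H.Adj a b)
    {v : W} (hdis : Disjoint S₁ S₂)
    (hv1 : v ∈ S₁) (hv : v ∈ S) (h₁ : ESG g (H.induce S₁) ⟨v, hv1⟩) :
    ESG g (H.induce S) ⟨v, hv⟩ := by
  classical
  have : Fintype W := Fintype.ofFinite W
  obtain ⟨C₁, hC₁⟩ := h₁
  have hS₁ : S₁ ⊆ S := hS ▸ Set.subset_union_left
  have hS₂ : S₂ ⊆ S := hS ▸ Set.subset_union_right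
  refine ⟨C₁ + (1 + Fintype.card S₂ ^ 2 + Fintype.card S₁), fun n G P hP hc => ?_⟩
  rcases Nat.eq_zero_or_pos n with hn0 | hn0
  · subst hn0
    have h0 : G.edgeSet = ∅ := by
      ext e
      induction e with | _ a b
      exact a.elim0
    rw [h0, Set.ncard_empty]
    exact Nat.zero_le _
  rw [add_mul]
  by_cases hall : ∀ c : Copy (H.induce S₁) G, c ⟨v, hv1⟩ ∈ P
  · exact (hC₁ n G P hP hall).trans (Nat.le_add_right _ _)
  · push Not at hall
    obtain ⟨c, hcP⟩ := hall
    set Z : Set (Fin n) := (Set.range c)ᶜ with hZ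
    have hfree : (H.induce S₂).Free (G.induce Z) := by
      rintro ⟨d⟩
      obtain ⟨e, he⟩ := exists_combine hS (fun a ha b hb hab => absurd hab (hcross a ha b hb))
        c ((Copy.induce G Z).comp d) (by
          intro a b
          constructor
          · intro hab
            have h5 : (d b).1 ∈ Z := (d b).2
            exact absurd ⟨a, hab⟩ h5
          · intro hab
            exact absurd (hab ▸ b.2) (Set.disjoint_left.1 hdis a.2))
      have h5 := hc e
      rw [he v hv1 hv] at h5
      exact hcP h5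
    have h1 := card_edgeFinset_le_extremalNumber hfree
    rw [← ncard_edgeSet] at h1
    have h2 : Fintype.card Z ≤ n := by simpa using set_fintype_card_le_univ Z
    have h3 := extremalNumber_le_add (H.induce S₂) h2
    have h4 := (extremalNumber_induce_mono H hS₂ n).trans (hex n)
    have h5 := ncard_edgeSet_le_induce G Z
    rw [Fintype.card_fin] at h5
    have h6 : Zᶜ.ncard ≤ Fintype.card S₁ := by
      rw [hZ, compl_compl, Set.ncard_eq_toFinset_card', Set.toFinset_range]
      exact card_image_le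
    have h7 : Zᶜ.ncard * n ≤ Fintype.card S₁ * n := Nat.mul_le_mul_right _ h6
    refine le_trans ?_ (Nat.le_add_left _ _)
    generalize extremalNumber n (H.induce S₂) = y at *
    generalize g n = z at *
    generalize Fintype.card S₁ = w at *
    generalize Fintype.card S₂ ^ 2 = w' at *
    have h8 : w' ≤ w' * n := Nat.le_mul_of_pos_right _ hn0
    nlinarith

/-- Graphs on at most two vertices. -/
theorem esg_small {W : Type*} [Finite W] {g : ℕ → ℕ} {H : SimpleGraph W} {S : Set W}
    (hS : S.ncard ≤ 2) {v : W} (hv : v ∈ S) : ESG g (H.induce S) ⟨v, hv⟩ := by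
  classical
  refine ⟨0, fun n G P hP hc => ?_⟩
  have hno : ∀ a b, ¬ G.Adj a b := by
    intro a b hab
    have key : ∀ a b, G.Adj a b → a ∈ P := by
      intro a b hab
      have hother : ∀ s t : S, s.1 ≠ v → t.1 ≠ v → s = t := by
        intro s t hs ht
        by_contra hst
        have h3 : 3 ≤ S.ncard := by
          rw [Nat.succ_le_iff, Set.two_lt_ncard_iff (Set.toFinite S)]
          exact ⟨v, s.1, t.1, hv, s.2, t.2, fun h => hs h.symm, fun h => ht h.symm,
            fun h => hst (Subtype.ext h)⟩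
        omega
      have hcopy := hc ⟨⟨fun s => if s.1 = v then a else b, ?_⟩, ?_⟩
      · have : (fun s : S => if s.1 = v then a else b) ⟨v, hv⟩ ∈ P := hcopy
        simpa using this
      · intro s t hst
        have hne : s ≠ t := (H.induce S).ne_of_adj hst
        by_cases hs : s.1 = v <;> by_cases ht : t.1 = v
        · exact absurd (Subtype.ext (hs.trans ht.symm)) hne
        · simp only [hs, ht, if_true, if_false]; exact hab
        · simp only [hs, ht, if_true, if_false]; exact hab.symm
        · exact absurd (hother s t hs ht) hne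
      · intro s t hst
        have hst : (if s.1 = v then a else b) = (if t.1 = v then a else b) := hst
        by_cases hs : s.1 = v <;> by_cases ht : t.1 = v
        · exact Subtype.ext (hs.trans ht.symm)
        · simp only [hs, ht, if_true, if_false] at hst
          exact absurd hst hab.ne
        · simp only [hs, ht, if_true, if_false] at hst
          exact absurd hst hab.ne'
        · exact hother s t hs ht
    exact (hP a b hab).1 (key a b hab) (key b a hab.symm)
  have h0 : G.edgeSet = ∅ := by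
    ext e
    induction e with | _ a b
    simp [hno a b]
  rw [h0, Set.ncard_empty]
  exact Nat.zero_le _

end Pool.Agent.Lib.H76GL
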