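import Pool.Agent.Lib.H76GL.B2

/-!
# From blocks to the graph, relative to a function `g`

Copy of `esAt_of_blocks_aux`, `ESAt.of_iso`, `esAt_of_isBlock` in `Pool/Agent/Lib/Helper15/Glue/Blocks.lean` (with the extra
hypothesis `hex`, inherited by `extremalNumber_induce_mono`).
-/

namespace Pool.Agent.Lib.H76GL

open SimpleGraph Finset Pool.Agent.Lib.Helper15.Glue

private theorem esg_of_blocks_aux {W : Type*} [Finite W] {g : ℕ → ℕ} (hg : Monotone g)
    (H : SimpleGraph W) :
    ∀ (k : ℕ) (S : Set W), S.ncard = k → (∀ n, extremalNumber n (H.induce S) ≤ g n) →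
      (∀ B, B ⊆ S → TwoConn H B → (∀ B', B' ⊆ S → TwoConn H B' → B ⊆ B' → B' ⊆ B) →
        ∀ r (hr : r ∈ B), ESG g (H.induce B) ⟨r, hr⟩) →
      ∀ v (hv : v ∈ S), ESG g (H.induce S) ⟨v, hv⟩ := by
  intro k
  induction k using Nat.strong_induction_on with
  | _ k ih =>
    intro S hSk hex hyp v hv
    rcases le_or_gt S.ncard 2 with h2 | h2
    · exact esg_small h2 hv
    by_cases hsep : ∃ S₁ S₂, Sep H S S₁ S₂
    · -- inheritance of the hypothesis
      have inh : ∀ S₁ S₂, Sep H S S₁ S₂ → ∀ w (hw : w ∈ S₁), ESG g (H.induce S₁) ⟨w, hw⟩ := by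
        intro S₁ S₂ hs w hw
        have hs' := hs
        obtain ⟨hU, hne1, hne2, hsub, hcross⟩ := hs'
        have hS₁ : S₁ ⊆ S := hU ▸ Set.subset_union_left
        have hlt : S₁.ncard < k := by
          rw [← hSk]
          exact Set.ncard_lt_ncard (hS₁.ssubset_of_ne hne1) (Set.toFinite S)
        refine ih _ hlt S₁ rfl (fun n => (extremalNumber_induce_mono H hS₁ n).trans (hex n)) ?_ w hw
        intro B hB hBc hmax r hr
        refine hyp B (hB.trans hS₁) hBc ?_ r hr
        intro B' hB' hB'c hBB'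
        rcases hB'c.subset_of_sep hB' hs with h3 | h3
        · exact hmax B' h3 hB'c hBB'
        · exfalso
          have h4 : B ⊆ S₁ ∩ S₂ := fun b hb => ⟨hB hb, h3 (hBB' hb)⟩
          have h5 : B.ncard ≤ 1 := Set.ncard_le_one_iff_subsingleton.2 (hsub.anti h4)
          have h6 := hBc.1
          omega
      have step : ∀ S₁ S₂, Sep H S S₁ S₂ → v ∈ S₁ → ESG g (H.induce S) ⟨v, hv⟩ := by
        intro S₁ S₂ hs hv1
        have h1 := inh S₁ S₂ hs v hv1
        have hs' := hs
        obtain ⟨hU, hne1, hne2, hsub, hcross⟩ := hs'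
        rcases Set.eq_empty_or_nonempty (S₁ ∩ S₂) with h0 | ⟨x, hx⟩
        · refine esg_disjoint hg hex hU ?_ (Set.disjoint_iff_inter_eq_empty.2 h0) hv1 hv h1
          intro a ha b hb hab
          rcases hcross a ha b hb hab with h3 | h3
          · exact (h0.subset ⟨ha, h3⟩ : a ∈ (∅ : Set W))
          · exact (h0.subset ⟨h3, hb⟩ : b ∈ (∅ : Set W))
        · exact esg_cut hg hex hU hcross hx.1 hx.2 (fun a ha1 ha2 => hsub ⟨ha1, ha2⟩ hx) hv1 hv h1
            (inh S₂ S₁ hs.symm x hx.2)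
      obtain ⟨S₁, S₂, hs⟩ := hsep
      have hvU : v ∈ S₁ ∪ S₂ := hs.1.symm.subset hv
      rcases hvU with h | h
      · exact step S₁ S₂ hs h
      · exact step S₂ S₁ hs.symm h
    · exact hyp S subset_rfl (twoConn_of_not_sep (by omega) hsep) (fun B' hB' _ _ => hB') v hv

private theorem esg_iso {W W' : Type*} {g : ℕ → ℕ} {H : SimpleGraph W} {H' : SimpleGraph W'}
    {r : W} (e : H ≃g H') (h : ESG g H r) : ESG g H' (e r) := by
  obtain ⟨C, hC⟩ := h
  refine ⟨C, fun n G P hP hc => hC n G P hP fun c => ?_⟩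
  have h2 := hc (c.comp e.symm.toCopy)
  have h3 : (c.comp e.symm.toCopy) (e r) = c (e.symm (e r)) := rfl
  rw [h3, e.symm_apply_apply] at h2
  exact h2

theorem esg_of_isBlock {W : Type*} [Finite W] {g : ℕ → ℕ} (hg : Monotone g) (H : SimpleGraph W)
    (hex : ∀ n, extremalNumber n H ≤ g n)
    (h : ∀ B, IsBlock H B → ∀ r : B, ESG g (H.induce B) r) (v : W) : ESG g H v := by
  have h1 := esg_of_blocks_aux hg H _ Set.univ rfl
    (fun n => (IsContained.extremalNumber_le ⟨(SimpleGraph.induceUnivIso H).toCopy⟩).trans (hex n))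
    (fun B _ hB hmax r hr =>
      h B ⟨hB, fun B' hB' hBB' => hmax B' (Set.subset_univ _) hB' hBB'⟩ ⟨r, hr⟩) v
    (Set.mem_univ v)
  exact esg_iso (SimpleGraph.induceUnivIso H) h1

end Pool.Agent.Lib.H76GL
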