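import Pool.Agent.Lib.H76GL.A1
import Pool.Agent.Lib.H76GL.A2
import Pool.Agent.Lib.H76GL.A4
import Pool.Agent.Lib.H76GL.B3

/-!
# Assembly: gluing with a graph whose blocks are symmetric or have a side of small degrees
-/

namespace Pool.Agent.Lib.H76GL

open SimpleGraph Finset Filter Asymptotics Pool.Agent.Lib.Helper15.Glue

/-- A graph with a side of degrees at most `k` satisfies `ESG g`, if `n ^ (2 k - 1) ≤ c * g n ^ k`. -/
theorem esg_of_side {W : Type*} [Finite W] (H : SimpleGraph W) (L : Set W)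
    (hL : ∀ a b, H.Adj a b → (a ∈ L ↔ b ∉ L)) (k : ℕ) (hk : 1 ≤ k)
    (hdeg : ∀ a ∈ L, (H.neighborSet a).ncard ≤ k) (g : ℕ → ℕ) (c N : ℕ)
    (hg : ∀ n, N ≤ n → n ^ (2 * k - 1) ≤ c * g n ^ k) (r : W) : ESG g H r := by
  classical
  have : Fintype W := Fintype.ofFinite W
  set m := Fintype.card W + k with hm
  refine ⟨(m ^ k + m) * c + N, fun n G P hP hc => ?_⟩
  have key : G.edgeSet.ncard ^ k ≤ (m ^ k + m) * n ^ (2 * k - 1) := by
    by_contra hcon
    push Not at hcon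
    obtain ⟨P', hP', hr⟩ : ∃ P' : Set (Fin n), (∀ a b, G.Adj a b → (a ∈ P' ↔ b ∉ P')) ∧
        (∀ x, (x ∈ P' ↔ r ∈ L) → x ∉ P) := by
      by_cases hrL : r ∈ L
      · refine ⟨Pᶜ, fun a b hab => ?_, fun x hx => ?_⟩
        · have := hP a b hab
          simp only [Set.mem_compl_iff]
          tauto
        · exact hx.2 hrL
      · refine ⟨P, hP, fun x hx => ?_⟩
        exact fun h => hrL (hx.1 h)
    obtain ⟨U, hU, hUm, hS⟩ := drc G P' hP' k m hk (by rwa [Fintype.card_fin])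
    obtain ⟨d, hd⟩ := embed H L hL k m hk hdeg le_rfl G P' hP' U hU hUm hS
    exact hr (d r) (hd r) (hc d)
  rcases le_or_gt N n with hn | hn
  · have h1 : G.edgeSet.ncard ^ k ≤ ((m ^ k + m) * c * g n) ^ k := by
      calc G.edgeSet.ncard ^ k ≤ (m ^ k + m) * n ^ (2 * k - 1) := key
        _ ≤ (m ^ k + m) * (c * g n ^ k) := Nat.mul_le_mul_left _ (hg n hn)
        _ = ((m ^ k + m) * c) * g n ^ k := by ring
        _ ≤ ((m ^ k + m) * c) ^ k * g n ^ k :=
          Nat.mul_le_mul_right _ (Nat.le_self_pow (by omega) _)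
        _ = _ := by rw [← mul_pow]
    have h2 : G.edgeSet.ncard ≤ (m ^ k + m) * c * g n :=
      (Nat.pow_le_pow_iff_left (by omega)).1 h1
    calc G.edgeSet.ncard ≤ (m ^ k + m) * c * g n := h2
      _ ≤ ((m ^ k + m) * c + N) * (g n + n) :=
        Nat.mul_le_mul (Nat.le_add_right _ _) (Nat.le_add_right _ _)
  · rw [ncard_edgeSet]
    calc #G.edgeFinset ≤ (Fintype.card (Fin n)).choose 2 := card_edgeFinset_le_card_choose_two
      _ = n.choose 2 := by rw [Fintype.card_fin]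
      _ ≤ n ^ 2 := Nat.choose_le_pow n 2
      _ = n * n := sq n
      _ ≤ ((m ^ k + m) * c + N) * (g n + n) :=
        Nat.mul_le_mul (hn.le.trans (Nat.le_add_left _ _)) (Nat.le_add_left _ _)

/-- The running maximum of `ex(n, H₁) + ex(n, H₂)`. -/
noncomputable def gmax {V₁ V₂ : Type*} (H₁ : SimpleGraph V₁) (H₂ : SimpleGraph V₂) (n : ℕ) : ℕ :=
  (range (n + 1)).sup fun j => extremalNumber j H₁ + extremalNumber j H₂

lemma gmax_mono {V₁ V₂ : Type*} (H₁ : SimpleGraph V₁) (H₂ : SimpleGraph V₂) :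
    Monotone (gmax H₁ H₂) := fun a b hab =>
  Finset.sup_mono (Finset.range_mono (by omega))

lemma le_gmax {V₁ V₂ : Type*} (H₁ : SimpleGraph V₁) (H₂ : SimpleGraph V₂) (n : ℕ) :
    extremalNumber n H₁ + extremalNumber n H₂ ≤ gmax H₁ H₂ n :=
  Finset.le_sup (f := fun j => extremalNumber j H₁ + extremalNumber j H₂)
    (Finset.mem_range.2 (Nat.lt_succ_self n))

lemma gmax_le {V₁ V₂ : Type*} [Fintype V₁] [Fintype V₂] (H₁ : SimpleGraph V₁)
    (H₂ : SimpleGraph V₂) (n : ℕ) :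
    gmax H₁ H₂ n ≤ extremalNumber n H₁ + extremalNumber n H₂ +
      (Fintype.card V₁ ^ 2 + Fintype.card V₂ ^ 2) := by
  refine Finset.sup_le fun j hj => ?_
  have hj' : j ≤ n := by have := Finset.mem_range.1 hj; omega
  have h1 := extremalNumber_le_add H₁ hj'
  have h2 := extremalNumber_le_add H₂ hj'
  omega

/-- The theorem with a parameter `k`. -/
theorem main_k {V₁ V₂ : Type} [Fintype V₁] [Fintype V₂] (H₁ : SimpleGraph V₁)
    (H₂ : SimpleGraph V₂) (u : V₁) (v : V₂)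
    (h₁ : 1 ≤ H₁.edgeSet.ncard) (h₂ : 1 ≤ H₂.edgeSet.ncard)
    (h₃ : 3 ≤ H₁.edgeSet.ncard + H₂.edgeSet.ncard) (k c : ℕ) (hk : 1 ≤ k)
    (hex : ∀ᶠ n : ℕ in atTop,
      n ^ (2 * k - 1) ≤ c * (extremalNumber n H₁ + extremalNumber n H₂) ^ k)
    (hB : ∀ B : Set V₂, IsBlock H₂ B →
      (∀ r : B, ∃ φ : H₂.induce B ≃g H₂.induce B, ∃ p : (H₂.induce B).Walk r (φ r), Odd p.length) ∨
      ∃ L : Set B, (∀ a b, (H₂.induce B).Adj a b → (a ∈ L ↔ b ∉ L)) ∧
        ∀ a ∈ L, ((H₂.induce B).neighborSet a).ncard ≤ k) :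
    (fun n : ℕ => (extremalNumber n (glue H₁ u H₂ v) : ℝ)) =Θ[atTop]
      fun n : ℕ => (extremalNumber n H₁ + extremalNumber n H₂ : ℝ) := by
  classical
  obtain ⟨N, hN⟩ := eventually_atTop.1 hex
  set g := gmax H₁ H₂ with hgdef
  have hg : Monotone g := gmax_mono H₁ H₂
  have hle := le_gmax H₁ H₂
  have hex2 : ∀ n, extremalNumber n H₂ ≤ g n := fun n =>
    (Nat.le_add_left _ _).trans (hle n)
  have hsg : ESG g H₂ v := by
    refine esg_of_isBlock hg H₂ hex2 (fun B hBB r => ?_) v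
    rcases hB B hBB with h | ⟨L, hL, hdeg⟩
    · obtain ⟨φ, p, hp⟩ := h r
      obtain ⟨C, hC⟩ := esAt_of_swapAt (H := H₂.induce B) (r := r) ⟨φ.toCopy, p, hp⟩
      refine ⟨C, fun n G P hP hc => (hC n G P hP hc).trans (Nat.mul_le_mul_left _ ?_)⟩
      refine Nat.add_le_add_right (le_trans ?_ (hex2 n)) _
      exact IsContained.extremalNumber_le ⟨Copy.induce H₂ B⟩
    · refine esg_of_side (H₂.induce B) L hL k hk hdeg g c N (fun n hn => ?_) r
      exact (hN n hn).trans (Nat.mul_le_mul_left _ (Nat.pow_le_pow_left (hle n) k))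
  obtain ⟨C, hC⟩ := ESG.glue_le (H₁ := H₁) (u := u) hg hex2 hsg
  refine isTheta_of_le h₁ h₂ h₃
    (C := C * (2 + (Fintype.card V₁ ^ 2 + Fintype.card V₂ ^ 2))) fun n => ?_
  rcases Nat.eq_zero_or_pos n with hn | hn
  · subst hn
    have h := extremalNumber_le_sq (glue H₁ u H₂ v) 0
    simp only [ne_eq, OfNat.ofNat_ne_zero, not_false_eq_true, zero_pow, nonpos_iff_eq_zero] at h
    rw [h]
    exact Nat.zero_le _
  refine (hC n).trans ?_
  rw [mul_assoc]
  refine Nat.mul_le_mul_left _ ?_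
  have h := gmax_le H₁ H₂ n
  rw [← hgdef] at h
  generalize Fintype.card V₁ ^ 2 + Fintype.card V₂ ^ 2 = w at *
  generalize extremalNumber n H₁ = x at *
  generalize extremalNumber n H₂ = y at *
  have hw : w ≤ w * n := Nat.le_mul_of_pos_right _ hn
  nlinarith

/-- If `H₁` or `H₂` contains a 4-cycle then `n ^ 3 ≤ c * (ex(n, H₁) + ex(n, H₂)) ^ 2`. -/
theorem hex_of_c4 {V₁ V₂ : Type*} (H₁ : SimpleGraph V₁) (H₂ : SimpleGraph V₂)
    (h : cycleGraph 4 ⊑ H₁ ∨ cycleGraph 4 ⊑ H₂) :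
    ∃ c : ℕ, ∀ᶠ n : ℕ in atTop,
      n ^ (2 * 2 - 1) ≤ c * (extremalNumber n H₁ + extremalNumber n H₂) ^ 2 := by
  obtain ⟨c, N, hc⟩ := c4_lower
  refine ⟨c, eventually_atTop.2 ⟨N, fun n hn => (hc n hn).trans (Nat.mul_le_mul_left _ ?_)⟩⟩
  refine Nat.pow_le_pow_left ?_ 2
  rcases h with h | h
  · exact h.extremalNumber_le.trans (Nat.le_add_right _ _)
  · exact h.extremalNumber_le.trans (Nat.le_add_left _ _)

end Pool.Agent.Lib.H76GL
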